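import Mathlib

set_option autoImplicit false
open Finset Filter

namespace Pool.Agent.H.MP_5e019f_nt

theorem sqf_uniq {q q' r r' : ℕ} (hq : Squarefree q) (hq' : Squarefree q') (hr : r ≠ 0) (hr' : r' ≠ 0)
    (h : q * r ^ 2 = q' * r' ^ 2) : q = q' := by
  refine Nat.eq_of_factorization_eq hq.ne_zero hq'.ne_zero fun p => ?_
  have e := congrArg (fun m => m.factorization p) h
  simp only [Nat.factorization_mul hq.ne_zero (pow_ne_zero 2 hr),
    Nat.factorization_mul hq'.ne_zero (pow_ne_zero 2 hr'), Nat.factorization_pow, Finsupp.add_apply,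
    Finsupp.smul_apply, smul_eq_mul] at e
  have a := hq.natFactorization_le_one p
  have b := hq'.natFactorization_le_one p
  omega

theorem sum_inv_sq (N : ℕ) (h : 2 ≤ N) : ∑ d ∈ Icc 2 N, (1 : ℝ) / (d : ℝ) ^ 2 ≤ 3 / 4 - 1 / N := by
  induction N, h using Nat.le_induction with
  | base => norm_num
  | succ n hn ih =>
    rw [Finset.sum_Icc_succ_top (by omega)]
    have h0 : (0 : ℝ) < n := by exact_mod_cast (by omega : 0 < n)
    have : (1 : ℝ) / ((n + 1 : ℕ) : ℝ) ^ 2 ≤ 1 / n - 1 / ((n + 1 : ℕ) : ℝ) := by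
      push_cast
      rw [div_sub_div _ _ h0.ne' (by positivity), div_le_div_iff₀ (by positivity) (by positivity)]
      nlinarith
    linarith

theorem sqf_count (N : ℕ) : (N : ℝ) / 4 ≤ #{w ∈ Icc 1 N | Squarefree w} := by
  rcases Nat.lt_or_ge N 2 with h | h
  · interval_cases N
    · simp
    · have : ({w ∈ Icc 1 1 | Squarefree w} : Finset ℕ) = {1} := by
        ext w; simp only [mem_filter, mem_Icc, mem_singleton]
        exact ⟨fun h => by omega, fun h => by subst h; exact ⟨⟨le_rfl, le_rfl⟩, squarefree_one⟩⟩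
      rw [this]; norm_num
  have h1 : ({w ∈ Icc 1 N | ¬ Squarefree w} : Finset ℕ) ⊆
      (Icc 2 N).biUnion fun d => {x ∈ Ioc 0 N | d ^ 2 ∣ x} := by
    intro w hw
    simp only [mem_filter, mem_Icc, Nat.squarefree_iff_prime_squarefree, not_forall, not_not] at hw
    obtain ⟨⟨a, b⟩, p, hp, hd⟩ := hw
    simp only [mem_biUnion, mem_filter, mem_Icc, mem_Ioc]
    exact ⟨p, ⟨hp.two_le, (Nat.le_of_dvd a ((Dvd.intro _ rfl).trans hd)).trans b⟩, ⟨a, b⟩, by rwa [sq]⟩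
  have h2 := (card_le_card h1).trans card_biUnion_le
  simp only [Nat.Ioc_filter_dvd_card_eq_div] at h2
  have h3 : ((∑ d ∈ Icc 2 N, N / d ^ 2 : ℕ) : ℝ) ≤ N * (3 / 4) := by
    push_cast
    calc ∑ d ∈ Icc 2 N, ((N / d ^ 2 : ℕ) : ℝ) ≤ ∑ d ∈ Icc 2 N, N * ((1 : ℝ) / (d : ℝ) ^ 2) :=
          sum_le_sum fun d _ => by
            have := Nat.cast_div_le (α := ℝ) (m := N) (n := d ^ 2)
            push_cast at this
            rwa [mul_one_div]
      _ ≤ N * (3 / 4) := by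
          rw [← mul_sum]
          have := sum_inv_sq N h
          have h0 : (0 : ℝ) ≤ 1 / N := by positivity
          exact mul_le_mul_of_nonneg_left (by linarith) (by positivity)
  have h4 := card_filter_add_card_filter_not (s := Icc 1 N) (fun w => Squarefree w)
  rw [Nat.card_Icc] at h4
  have h5 : ((#{w ∈ Icc 1 N | ¬ Squarefree w} : ℕ) : ℝ) ≤ N * (3 / 4) := (Nat.cast_le.2 h2).trans h3
  have h6 : ((#{w ∈ Icc 1 N | Squarefree w} : ℕ) : ℝ) + (#{w ∈ Icc 1 N | ¬ Squarefree w} : ℕ) = N := by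
    exact_mod_cast h4.trans (by omega)
  linarith

theorem key {u u' w w' : ℕ} (hu : u.Prime) (hu' : u'.Prime) (h1 : 0 < w) (h2 : w < u) (h1' : 0 < w')
    (h2' : w' < u') (h : u * w = u' * w') : u = u' ∧ w = w' := by
  have e : u = u' := by
    rcases (Nat.Prime.dvd_mul hu).1 (h ▸ Dvd.intro _ rfl : u ∣ u' * w') with a | a
    · exact (Nat.prime_dvd_prime_iff_eq hu hu').1 a
    · rcases (Nat.Prime.dvd_mul hu').1 (h.symm ▸ Dvd.intro _ rfl : u' ∣ u * w) with b | b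
      · exact ((Nat.prime_dvd_prime_iff_eq hu' hu).1 b).symm
      · have := Nat.le_of_dvd h1' a
        have := Nat.le_of_dvd h1 b
        omega
  subst e
  exact ⟨rfl, Nat.eq_of_mul_eq_mul_left hu.pos h⟩

theorem cover (P : Finset ℕ) (hP : ∀ u ∈ P, u.Prime) (n : ℕ) (A : Finset ℕ) (hA : A ⊆ Icc 1 n)
    (h : ∀ a ∈ A, ∀ b ∈ A, a ≠ b → ∀ x, 0 < x → a * b ≠ x ^ 4) :
    ∑ u ∈ P, #{w ∈ Icc 1 (u - 1) | Squarefree w} * (n.sqrt / u ^ 2) ≤ (n - #A) * 2 := by
  classical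
  let T := P.sigma fun u => {w ∈ Icc 1 (u - 1) | Squarefree w} ×ˢ Icc 1 (n.sqrt / u ^ 2)
  have hT : ∀ z ∈ T, z.1.Prime ∧ 0 < z.2.1 ∧ z.2.1 < z.1 ∧ Squarefree (z.1 * z.2.1) ∧ 0 < z.2.2 ∧
      (z.1 ^ 2 * z.2.2) ^ 2 ≤ n := by
    rintro ⟨u, w, v⟩ hz
    simp only [T, mem_sigma, mem_product, mem_filter, mem_Icc] at hz
    obtain ⟨a, ⟨⟨b, c⟩, d⟩, e, f⟩ := hz
    have hu := hP u a
    have := hu.two_le
    refine ⟨hu, b, by simp only; omega, ?_, e, ?_⟩
    · refine (Nat.squarefree_mul ?_).2 ⟨hu.squarefree, d⟩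
      exact (Nat.Prime.coprime_iff_not_dvd hu).2 fun hd => by
        have := Nat.le_of_dvd b hd
        omega
    · have g : u ^ 2 * v ≤ n.sqrt := by
        rw [mul_comm]; exact (Nat.le_div_iff_mul_le (by positivity)).1 f
      exact (Nat.pow_le_pow_left g 2).trans (Nat.sqrt_le' n)
  let g : (Σ _ : ℕ, ℕ × ℕ) → ℕ × Bool := fun z =>
    if z.1 * z.2.1 * (z.2.1 * z.2.2) ^ 2 ∈ A then (z.1 * z.2.1 * (z.1 * z.2.2) ^ 2, false)
    else (z.1 * z.2.1 * (z.2.1 * z.2.2) ^ 2, true)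
  have h1 : ∀ z ∈ T, g z ∈ (Icc 1 n \ A) ×ˢ (univ : Finset Bool) := by
    rintro ⟨u, w, v⟩ hz
    obtain ⟨a, b, c, d, e, f⟩ := hT _ hz
    simp only at a b c d e f
    have hu := a.pos
    have k1 : u * w * (u * v) ^ 2 ≤ n := le_trans (by
      calc u * w * (u * v) ^ 2 ≤ u * u * (u * v) ^ 2 := by gcongr
        _ = (u ^ 2 * v) ^ 2 := by ring) f
    have k2 : u * w * (w * v) ^ 2 < u * w * (u * v) ^ 2 := by gcongr
    simp only [g]
    split_ifs with hh
    · simp only [mem_product, Finset.mem_sdiff, mem_Icc, mem_univ, and_true]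
      refine ⟨⟨Nat.succ_le_of_lt (by positivity), k1⟩, fun h' => ?_⟩
      exact h _ hh _ h' k2.ne (u * w * v) (by positivity) (by ring)
    · simp only [mem_product, Finset.mem_sdiff, mem_Icc, mem_univ, and_true]
      exact ⟨⟨Nat.succ_le_of_lt (by positivity), k2.le.trans k1⟩, hh⟩
  have h2 : Set.InjOn g T := by
    rintro ⟨u, w, v⟩ hz ⟨u', w', v'⟩ hz' e
    obtain ⟨a, b, c, d, f, -⟩ := hT _ hz
    obtain ⟨a', b', c', d', f', -⟩ := hT _ hz'
    simp only at a b c d f a' b' c' d' f'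
    have hu := a.pos
    have hu' := a'.pos
    simp only [g] at e
    split_ifs at e
    · have e1 := (Prod.mk.inj e).1
      obtain ⟨rfl, rfl⟩ := key a a' b c b' c' (sqf_uniq d d' (by positivity) (by positivity) e1)
      have := Nat.pow_left_injective two_ne_zero (Nat.eq_of_mul_eq_mul_left (by positivity) e1)
      rw [Nat.eq_of_mul_eq_mul_left hu this]
    · simp at e
    · simp at e
    · have e1 := (Prod.mk.inj e).1
      obtain ⟨rfl, rfl⟩ := key a a' b c b' c' (sqf_uniq d d' (by positivity) (by positivity) e1)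
      have := Nat.pow_left_injective two_ne_zero (Nat.eq_of_mul_eq_mul_left (by positivity) e1)
      rw [Nat.eq_of_mul_eq_mul_left b this]
  have h3 := card_le_card_of_injOn g h1 h2
  rw [card_product, card_sdiff_of_subset hA, Nat.card_Icc, card_univ, Fintype.card_bool] at h3
  simpa only [T, card_sigma, card_product, Nat.card_Icc, Nat.add_sub_cancel] using h3

theorem big (M : ℝ) : ∃ P : Finset ℕ, (∀ u ∈ P, u.Prime) ∧ M < ∑ u ∈ P, (1 : ℝ) / u := by
  by_contra! H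
  refine Nat.Primes.not_summable_one_div (summable_of_sum_le (c := M) (fun p => by positivity) fun s => ?_)
  have := H (s.image Subtype.val) (by
    intro u hu
    obtain ⟨p, -, rfl⟩ := mem_image.1 hu
    exact p.2)
  rwa [sum_image fun a _ b _ h => Subtype.ext h] at this

theorem main (C : ℝ) : ∀ᶠ n : ℕ in atTop, ∀ A : Finset ℕ, A ⊆ Icc 1 n →
    (∀ a ∈ A, ∀ b ∈ A, a ≠ b → ∀ x, 0 < x → a * b ≠ x ^ 4) → C * √n < (n : ℝ) - #A := by
  obtain ⟨P, hP, hM⟩ := big (16 * (C + 1))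
  have ht : Tendsto (fun n : ℕ => √(n : ℝ)) atTop atTop :=
    Real.tendsto_sqrt_atTop.comp tendsto_natCast_atTop_atTop
  filter_upwards [ht.eventually_gt_atTop (∑ u ∈ P, (u : ℝ) / 8)] with n hn A hA h
  have h1 := cover P hP n A hA h
  have h0 : #A ≤ n := by simpa using card_le_card hA
  have h2 : ∑ u ∈ P, ((#{w ∈ Icc 1 (u - 1) | Squarefree w} : ℕ) : ℝ) * ((n.sqrt / u ^ 2 : ℕ) : ℝ) ≤
      ((n : ℝ) - #A) * 2 := by
    have := (Nat.cast_le (α := ℝ)).2 h1
    push_cast [Nat.cast_sub h0] at this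
    exact this
  have h3 : ∀ u ∈ P, √(n : ℝ) / 8 * (1 / u) - u / 4 ≤
      ((#{w ∈ Icc 1 (u - 1) | Squarefree w} : ℕ) : ℝ) * ((n.sqrt / u ^ 2 : ℕ) : ℝ) := by
    intro u hu
    have a := (hP u hu).two_le
    have a' : (2 : ℝ) ≤ u := by exact_mod_cast a
    have b := sqf_count (u - 1)
    rw [Nat.cast_sub (by omega), Nat.cast_one] at b
    have c : √(n : ℝ) < n.sqrt + 1 := Real.real_sqrt_lt_nat_sqrt_succ
    have d : (n.sqrt : ℝ) < (u : ℝ) ^ 2 * (((n.sqrt / u ^ 2 : ℕ) : ℝ) + 1) := by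
      exact_mod_cast Nat.lt_mul_div_succ n.sqrt (by positivity : 0 < u ^ 2)
    have e : √(n : ℝ) / (u : ℝ) ^ 2 - 2 ≤ ((n.sqrt / u ^ 2 : ℕ) : ℝ) := by
      rw [sub_le_iff_le_add, div_le_iff₀ (by positivity)]
      nlinarith
    calc √(n : ℝ) / 8 * (1 / u) - u / 4 = (u : ℝ) / 8 * (√(n : ℝ) / (u : ℝ) ^ 2 - 2) := by
          field_simp; ring
      _ ≤ (u : ℝ) / 8 * ((n.sqrt / u ^ 2 : ℕ) : ℝ) := by gcongr
      _ ≤ _ := by gcongr; linarith
  have h4 := (sum_le_sum h3).trans h2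
  rw [sum_sub_distrib, ← mul_sum] at h4
  have h5 : ∑ u ∈ P, (u : ℝ) / 4 = 2 * ∑ u ∈ P, (u : ℝ) / 8 := by
    rw [mul_sum]; exact sum_congr rfl fun u _ => by ring
  have h6 : √(n : ℝ) / 8 * (16 * (C + 1)) ≤ √(n : ℝ) / 8 * ∑ u ∈ P, (1 : ℝ) / u := by gcongr
  nlinarith

end Pool.Agent.H.MP_5e019f_nt
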